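import Pool.Agent.H31.UF.Targets

/-!
# MP_c59857_nt, board uf_modules: module CBC (membership and the number of the cubes)
-/

open Finset Filter Topology

namespace Pool.Agent.H63.UF

open Pool.Agent.H91.LF Pool.Agent.H31.UF

theorem mem_CB (k N : ℕ) (z : Fin (k + 1) → ℤ) :
    z ∈ CB k N ↔ ∀ s, 1 ≤ vx z s ∧ vx z s ≤ N := by
  classical
  unfold CB
  rw [Finset.mem_filter, Fintype.mem_piFinset]
  refine ⟨fun h => h.2, fun h => ⟨fun i => ?_, h⟩⟩
  have h0 := h ∅
  have e0 : vx z ∅ = z 0 := by
    unfold vx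
    rw [Finset.sum_empty, add_zero]
  rw [e0] at h0
  rw [Finset.mem_Icc]
  refine Fin.cases ?_ (fun j => ?_) i
  · omega
  · have h1 := h {j}
    have e1 : vx z {j} = z 0 + z j.succ := by
      unfold vx
      rw [Finset.sum_singleton]
    rw [e1] at h1
    omega

theorem pf_CBC : T_CBC := by
  classical
  intro k
  refine ⟨mem_CB k, ?_, ?_⟩
  · intro N
    rcases Nat.eq_zero_or_pos N with rfl | hN
    · have h1 : CB k 0 = ∅ := by
        refine Finset.eq_empty_of_forall_notMem fun z hz => ?_
        have := (mem_CB k 0 z).1 hz ∅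
        have h2 : (1 : ℤ) ≤ ((0 : ℕ) : ℤ) := this.1.trans this.2
        norm_num at h2
      rw [h1]
      simp
    · have hsub : CB k N ⊆ Fintype.piFinset (Fin.cons (Finset.Icc (1 : ℤ) N)
          (fun _ => Finset.Icc (-(N : ℤ)) N) : Fin (k + 1) → Finset ℤ) := by
        intro z hz
        rw [Fintype.mem_piFinset]
        have h := (mem_CB k N z).1 hz
        have h0 := h ∅
        have e0 : vx z ∅ = z 0 := by
          unfold vx
          rw [Finset.sum_empty, add_zero]
        rw [e0] at h0
        intro i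
        refine Fin.cases ?_ (fun j => ?_) i
        · rw [Fin.cons_zero, Finset.mem_Icc]
          exact h0
        · have h1 := h {j}
          have e1 : vx z {j} = z 0 + z j.succ := by
            unfold vx
            rw [Finset.sum_singleton]
          rw [e1] at h1
          rw [Fin.cons_succ, Finset.mem_Icc]
          omega
      have hc := Finset.card_le_card hsub
      rw [Fintype.card_piFinset, Fin.prod_univ_succ, Fin.cons_zero] at hc
      simp only [Fin.cons_succ, Finset.prod_const, Finset.card_univ, Fintype.card_fin,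
        Int.card_Icc] at hc
      have e1 : ((N : ℤ) + 1 - 1).toNat = N := by omega
      have e2 : ((N : ℤ) + 1 - -(N : ℤ)).toNat = 2 * N + 1 := by omega
      rw [e1, e2] at hc
      have hc' : ((CB k N).card : ℝ) ≤ (N : ℝ) * (2 * N + 1) ^ k := by exact_mod_cast hc
      have hN' : (1 : ℝ) ≤ N := by exact_mod_cast hN
      calc ((CB k N).card : ℝ) ≤ (N : ℝ) * (2 * N + 1) ^ k := hc'
        _ ≤ (N : ℝ) * (3 * N) ^ k := by
          refine mul_le_mul_of_nonneg_left (pow_le_pow_left₀ (by positivity) (by linarith) k)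
            (by positivity)
        _ = 3 ^ k * (N : ℝ) ^ (k + 1) := by
          rw [mul_pow, pow_succ]
          ring
  · refine ⟨(1 / ((k : ℝ) + 1)) ^ (k + 1), by positivity, fun N => ?_⟩
    obtain ⟨q, hq⟩ : ∃ q : ℕ, q = N / (k + 1) := ⟨_, rfl⟩
    have hq1 : (k + 1) * q ≤ N := by
      rw [hq]
      exact Nat.mul_div_le N (k + 1)
    have hq2 : N < (k + 1) * (q + 1) := by
      rw [hq]
      exact Nat.lt_mul_div_succ N (Nat.succ_pos k)
    have hsub : Fintype.piFinset (Fin.cons (Finset.Icc (1 : ℤ) (N - k * q))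
        (fun _ => Finset.Icc (0 : ℤ) q) : Fin (k + 1) → Finset ℤ) ⊆ CB k N := by
      intro z hz
      rw [Fintype.mem_piFinset] at hz
      have h0 := hz 0
      rw [Fin.cons_zero, Finset.mem_Icc] at h0
      have h1 : ∀ j : Fin k, 0 ≤ z j.succ ∧ z j.succ ≤ q := by
        intro j
        have := hz j.succ
        rw [Fin.cons_succ, Finset.mem_Icc] at this
        exact this
      rw [mem_CB]
      intro s
      have hs1 : 0 ≤ ∑ i ∈ s, z i.succ := Finset.sum_nonneg fun i _ => (h1 i).1
      have hs2 : ∑ i ∈ s, z i.succ ≤ k * q := by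
        calc ∑ i ∈ s, z i.succ ≤ ∑ _i ∈ s, (q : ℤ) := Finset.sum_le_sum fun i _ => (h1 i).2
          _ = s.card * q := by rw [Finset.sum_const, nsmul_eq_mul]
          _ ≤ k * q := by
            have : s.card ≤ k := by
              have := Finset.card_le_univ s
              rwa [Fintype.card_fin] at this
            have h3 : (s.card : ℤ) ≤ k := by exact_mod_cast this
            exact mul_le_mul_of_nonneg_right h3 (by positivity)
      unfold vx
      constructor <;> linarith [h0.1, h0.2]
    have hc := Finset.card_le_card hsub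
    rw [Fintype.card_piFinset, Fin.prod_univ_succ, Fin.cons_zero] at hc
    simp only [Fin.cons_succ, Finset.prod_const, Finset.card_univ, Fintype.card_fin,
      Int.card_Icc] at hc
    have hkq : k * q ≤ N := by nlinarith
    have e1 : ((N : ℤ) - k * q + 1 - 1).toNat = N - k * q := by
      have : (N : ℤ) - k * q + 1 - 1 = ((N - k * q : ℕ) : ℤ) := by
        rw [Nat.cast_sub hkq]
        push_cast
        ring
      rw [this, Int.toNat_natCast]
    have e2 : ((q : ℤ) + 1 - 0).toNat = q + 1 := by omega
    rw [e1, e2] at hc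
    have hc' : ((N : ℝ) - k * q) * (q + 1) ^ k ≤ ((CB k N).card : ℝ) := by
      have h3 : (((N - k * q : ℕ) : ℝ)) * (q + 1) ^ k ≤ ((CB k N).card : ℝ) := by
        exact_mod_cast hc
      rw [Nat.cast_sub hkq] at h3
      push_cast at h3
      exact h3
    have hk : (0 : ℝ) < (k : ℝ) + 1 := by positivity
    have hq1' : ((k : ℝ) + 1) * q ≤ N := by exact_mod_cast hq1
    have hq2' : (N : ℝ) ≤ ((k : ℝ) + 1) * (q + 1) := by exact_mod_cast hq2.le
    have a1 : (N : ℝ) / (k + 1) ≤ N - k * q := by
      rw [div_le_iff₀ hk]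
      nlinarith
    have a2 : (N : ℝ) / (k + 1) ≤ q + 1 := by
      rw [div_le_iff₀ hk]
      linarith
    have a0 : (0 : ℝ) ≤ (N : ℝ) / (k + 1) := by positivity
    calc (1 / ((k : ℝ) + 1)) ^ (k + 1) * (N : ℝ) ^ (k + 1) = ((N : ℝ) / (k + 1)) ^ (k + 1) := by
          rw [← mul_pow]
          congr 1
          ring
      _ = (N : ℝ) / (k + 1) * ((N : ℝ) / (k + 1)) ^ k := by
          rw [pow_succ, mul_comm]
      _ ≤ ((N : ℝ) - k * q) * (q + 1) ^ k :=
          mul_le_mul a1 (pow_le_pow_left₀ a0 a2 k) (by positivity) (a0.trans a1)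
      _ ≤ _ := hc'

end Pool.Agent.H63.UF
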